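import Pool.Agent.TH125.Gal.Blk

/-!
# Transvections without irreducibility: the decomposition into blocks
-/

open Finset Function

set_option linter.unusedSectionVars false

namespace Pool.Agent.TH125.Squ

open Pool.Agent.TH125.Gal

universe u v w x

variable {K : Type u} [Field K] [CharZero K] {T : Type v} [AddCommGroup T] [Module K T]
  {E : Type w} [AddCommGroup E] [Module K E] {S : Type} [Fintype S] [DecidableEq S]
  {G : Type x} [Group G] {B : T →ₗ[K] T →ₗ[K] K} {ρ : G →* (T →ₗ[K] T)} {σ : G →* (E →ₗ[K] E)}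
  {D : Set T}

/-- The vectors are joined by a chain of vectors of `D` such that consecutive vectors are not
orthogonal. -/
def Conn (B : T →ₗ[K] T →ₗ[K] K) (D : Set T) : T → T → Prop :=
  Relation.ReflTransGen fun a b => b ∈ D ∧ B a b ≠ 0

theorem Conn.mem {a b : T} (h : Conn B D a b) (ha : a ∈ D) : b ∈ D := by
  induction h with
  | refl => exact ha
  | tail _ h _ => exact h.1

theorem Conn.symm' (hsk : ∀ x y, B x y = -B y x) {a b : T} (h : Conn B D a b) (ha : a ∈ D) :
    Conn B D b a := by
  induction h with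
  | refl => exact Relation.ReflTransGen.refl
  | tail h1 h2 ih =>
    exact Relation.ReflTransGen.head ⟨Conn.mem h1 ha, by rw [hsk]; exact neg_ne_zero.2 h2.2⟩ ih

theorem Conn.trans' {a b c : T} (h : Conn B D a b) (h' : Conn B D b c) : Conn B D a c :=
  Relation.ReflTransGen.trans h h'

/-- connected vectors -/
theorem conn_ss (hsk : ∀ x y, B x y = -B y x) (hD : ∀ δ ∈ D, rk B δ δ ∈ LL S B ρ σ) {a b : T}
    (ha : a ∈ D) (h : Conn B D a b) : ss B a b ∈ LL S B ρ σ := by
  induction h with
  | refl => exact Submodule.add_mem _ (hD a ha) (hD a ha)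
  | @tail b c h1 h2 ih =>
    have hb : b ∈ D := Conn.mem h1 ha
    have hc := hD c h2.1
    have hcb : B c b ≠ 0 := by
      rw [hsk]
      exact neg_ne_zero.2 h2.2
    have hbc : ss B c b ∈ LL S B ρ σ := by
      have h3 : rk B c c ∘ₗ ss B b b - ss B b b ∘ₗ rk B c c ∈ LL S B ρ σ :=
        LL_bracket hc (Submodule.add_mem _ (hD b hb) (hD b hb))
      rw [ss_bracket hc.1, rk_apply, ss_smul_left, ss_smul_right, ss_comm b c, ← two_smul K,
        smul_smul] at h3
      have h4 := Submodule.smul_mem _ (2 * B c b)⁻¹ h3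
      rwa [smul_smul, inv_mul_cancel₀ (mul_ne_zero two_ne_zero hcb), one_smul] at h4
    have h3 := LL_bracket hc ih
    rw [ss_bracket hc.1, rk_apply, rk_apply, ss_smul_left, ss_smul_right] at h3
    have h4 := Submodule.sub_mem _ h3 (Submodule.smul_mem _ (B c a) hbc)
    rw [add_sub_cancel_left] at h4
    have h5 := Submodule.smul_mem _ (B c b)⁻¹ h4
    rw [smul_smul, inv_mul_cancel₀ hcb, one_smul] at h5
    exact h5

/-- the span of the vectors connected with `a` -/
def blkOf (B : T →ₗ[K] T →ₗ[K] K) (D : Set T) (a : T) : Submodule K T :=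
  Submodule.span K {b | Conn B D a b}

theorem self_mem (a : T) : a ∈ blkOf B D a :=
  Submodule.subset_span (Relation.ReflTransGen.refl : Conn B D a a)

theorem blkOf_eq (hsk : ∀ x y, B x y = -B y x) {a b : T} (ha : a ∈ D) (h : Conn B D a b) :
    blkOf B D a = blkOf B D b := by
  apply le_antisymm
  · exact Submodule.span_mono fun c hc => (h.symm' hsk ha).trans' hc
  · exact Submodule.span_mono fun c hc => h.trans' hc

/-- different blocks are orthogonal -/
theorem blk_orth (hsk : ∀ x y, B x y = -B y x) {a b : T} (hb : b ∈ D)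
    (h : ¬ Conn B D a b) {x y : T} (hx : x ∈ blkOf B D a) (hy : y ∈ blkOf B D b) :
    B x y = 0 := by
  induction hx using Submodule.span_induction with
  | mem x hx =>
    induction hy using Submodule.span_induction with
    | mem y hy =>
      by_contra hcon
      exact h ((Conn.trans' hx (Relation.ReflTransGen.single ⟨Conn.mem hy hb, hcon⟩)).trans'
        (Conn.symm' hsk hy hb))
    | zero => rw [map_zero]
    | add y y' _ _ h1 h2 => rw [map_add, h1, h2, add_zero]
    | smul c y _ h1 => rw [map_smul, h1, smul_zero]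
  | zero => rw [map_zero, LinearMap.zero_apply]
  | add x x' _ _ h1 h2 => rw [map_add, LinearMap.add_apply, h1, h2, add_zero]
  | smul c x _ h1 => rw [map_smul, LinearMap.smul_apply, h1, smul_zero]

/-- all the operators of a block are in the Lie algebra -/
theorem blk_ss (hsk : ∀ x y, B x y = -B y x) (hD : ∀ δ ∈ D, rk B δ δ ∈ LL S B ρ σ) {a : T}
    (ha : a ∈ D) {x y : T} (hx : x ∈ blkOf B D a) (hy : y ∈ blkOf B D a) :
    ss B x y ∈ LL S B ρ σ := by
  induction hx using Submodule.span_induction with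
  | mem x hx =>
    induction hy using Submodule.span_induction with
    | mem y hy =>
      exact conn_ss hsk hD (Conn.mem hx ha) ((Conn.symm' hsk hx ha).trans' hy)
    | zero => rw [ss_comm, show (0 : T) = (0 : K) • 0 by rw [zero_smul], ss_smul_left, zero_smul]
              exact Submodule.zero_mem _
    | add y y' _ _ h1 h2 => rw [ss_add_right]; exact Submodule.add_mem _ h1 h2
    | smul c y _ h1 => rw [ss_smul_right]; exact Submodule.smul_mem _ _ h1
  | zero => rw [show (0 : T) = (0 : K) • 0 by rw [zero_smul], ss_smul_left, zero_smul]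
            exact Submodule.zero_mem _
  | add x x' _ _ h1 h2 => rw [ss_add_left]; exact Submodule.add_mem _ h1 h2
  | smul c x _ h1 => rw [ss_smul_left]; exact Submodule.smul_mem _ _ h1

theorem conn_act {μ : G → K} (hμ : ∀ g, μ g ≠ 0)
    (hB : ∀ g x y, B (ρ g x) (ρ g y) = μ g * B x y) (hGD : ∀ g, ∀ δ ∈ D, ρ g δ ∈ D) (g : G)
    {a b : T} (h : Conn B D a b) : Conn B D (ρ g a) (ρ g b) := by
  induction h with
  | refl => exact Relation.ReflTransGen.refl
  | @tail b c _ h2 ih =>
    refine Relation.ReflTransGen.tail ih ⟨hGD g _ h2.1, ?_⟩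
    rw [hB]
    exact mul_ne_zero (hμ g) h2.2

theorem inv_apply' (g : G) (x : T) : ρ g (ρ g⁻¹ x) = x := by
  rw [← Module.End.mul_apply, ← map_mul, mul_inv_cancel, map_one]
  rfl

theorem blk_map {μ : G → K} (hμ : ∀ g, μ g ≠ 0)
    (hB : ∀ g x y, B (ρ g x) (ρ g y) = μ g * B x y) (hGD : ∀ g, ∀ δ ∈ D, ρ g δ ∈ D) (g : G)
    (a : T) : (blkOf B D a).map (ρ g) = blkOf B D (ρ g a) := by
  apply le_antisymm
  · rw [blkOf, Submodule.map_span, blkOf]
    refine Submodule.span_mono ?_
    rintro _ ⟨b, hb, rfl⟩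
    exact conn_act hμ hB hGD g hb
  · rw [blkOf, Submodule.span_le]
    intro b hb
    have h1 := conn_act hμ hB hGD g⁻¹ hb
    have h2 : ρ g⁻¹ (ρ g a) = a := by
      have := inv_apply' (ρ := ρ) g⁻¹ a
      rwa [inv_inv] at this
    rw [h2] at h1
    exact ⟨ρ g⁻¹ b, Submodule.subset_span h1, inv_apply' g b⟩

/-- the set of the blocks -/
def blks (B : T →ₗ[K] T →ₗ[K] K) (D : Set T) : Set (Submodule K T) :=
  {U | ∃ a ∈ D, U = blkOf B D a}

theorem blks_orth (hsk : ∀ x y, B x y = -B y x) {U V : Submodule K T} (hU : U ∈ blks B D)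
    (hV : V ∈ blks B D) (h : U ≠ V) {x y : T} (hx : x ∈ U) (hy : y ∈ V) : B x y = 0 := by
  obtain ⟨a, ha, rfl⟩ := hU
  obtain ⟨b, hb, rfl⟩ := hV
  exact blk_orth hsk hb (fun h' => h (blkOf_eq hsk ha h')) hx hy

theorem sSup_blks (hspan : Submodule.span K D = ⊤) : sSup (blks B D) = ⊤ := by
  rw [eq_top_iff, ← hspan, Submodule.span_le]
  intro a ha
  exact (le_sSup (show blkOf B D a ∈ blks B D from ⟨a, ha, rfl⟩)) (self_mem a)

theorem indep_blks (hsk : ∀ x y, B x y = -B y x) (hnd : ∀ x, (∀ y, B x y = 0) → x = 0)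
    (hspan : Submodule.span K D = ⊤) : sSupIndep (blks B D) := by
  intro U hU
  rw [Submodule.disjoint_def]
  intro x hx hx'
  apply hnd
  intro y
  have hy : y ∈ Submodule.span K D := by rw [hspan]; exact Submodule.mem_top
  induction hy using Submodule.span_induction with
  | mem d hd =>
    by_cases h : blkOf B D d = U
    · -- `x` is orthogonal to `U`
      have h1 : sSup (blks B D \ {U}) ≤ LinearMap.ker (B.flip d) := by
        refine sSup_le ?_
        rintro V ⟨hV, hVU⟩ z hz
        rw [LinearMap.mem_ker, LinearMap.flip_apply]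
        exact blks_orth hsk hV hU hVU hz (h ▸ self_mem d)
      exact h1 hx'
    · exact blks_orth hsk hU ⟨d, hd, rfl⟩ (Ne.symm h) hx (self_mem d)
  | zero => rw [map_zero]
  | add y y' _ _ h1 h2 => rw [map_add, h1, h2, add_zero]
  | smul c y _ h1 => rw [map_smul, h1, smul_zero]

/-- **The blocks.** -/
structure BD (B : T →ₗ[K] T →ₗ[K] K) (D : Set T) (ρ : G →* (T →ₗ[K] T)) where
  /-- the number of blocks -/
  r : ℕ
  /-- the blocks -/
  U : Fin r → Submodule K T
  mem : ∀ i, U i ∈ blks B D
  inj : Function.Injective U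
  indep : iSupIndep U
  sup : iSup U = ⊤
  /-- the group of the elements which preserve the blocks -/
  sub : Subgroup G
  fin : sub.FiniteIndex
  stab : ∀ g ∈ sub, ∀ i, ∀ x ∈ U i, ρ g x ∈ U i

/-- an adapted basis -/
theorem BD.exists_basis [Module.Finite K T] (s : BD B D ρ) :
    ∃ (N : ℕ) (κ : Fin N → Fin s.r) (t : Module.Basis (Fin N) K T), ∀ j, t j ∈ s.U (κ j) := by
  classical
  have hint : DirectSum.IsInternal s.U :=
    DirectSum.isInternal_submodule_of_iSupIndep_of_iSup_eq_top s.indep s.sup
  let b0 := hint.collectedBasis fun i => Module.finBasis K (s.U i)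
  let e' := Fintype.equivFin (Σ i, Fin (Module.finrank K (s.U i)))
  refine ⟨_, fun j => (e'.symm j).1, b0.reindex e', fun j => ?_⟩
  rw [Module.Basis.reindex_apply]
  exact hint.collectedBasis_mem _ _

theorem exists_BD [Module.Finite K T] (hsk : ∀ x y, B x y = -B y x)
    (hnd : ∀ x, (∀ y, B x y = 0) → x = 0) {μ : G → K} (hμ : ∀ g, μ g ≠ 0)
    (hB : ∀ g x y, B (ρ g x) (ρ g y) = μ g * B x y) (hGD : ∀ g, ∀ δ ∈ D, ρ g δ ∈ D)
    (hspan : Submodule.span K D = ⊤) : Nonempty (BD B D ρ) := by
  classical
  have hind := indep_blks hsk hnd hspan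
  have hfin : (blks B D).Finite := WellFoundedGT.finite_of_sSupIndep hind
  have := hfin.fintype
  let e := Fintype.equivFin (blks B D)
  let U : Fin (Fintype.card (blks B D)) → Submodule K T := fun i => (e.symm i : blks B D)
  have hUinj : Function.Injective U := fun i j h => e.symm.injective (Subtype.ext h)
  have hUi : iSupIndep U := by
    have h1 : iSupIndep ((↑) : blks B D → Submodule K T) := (sSupIndep_iff _).1 hind
    exact h1.comp e.symm.injective
  have hUt : iSup U = ⊤ := by
    rw [← sSup_blks (B := B) hspan, sSup_eq_iSup']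
    exact e.symm.iSup_comp (g := fun V : blks B D => (V : Submodule K T))
  -- the action on the set of the blocks
  let act : MulAction G (blks B D) := {
    smul := fun g V => ⟨V.1.map (ρ g), by
      obtain ⟨a, ha, h⟩ := V.2
      exact ⟨ρ g a, hGD g a ha, by rw [h, blk_map hμ hB hGD]⟩⟩
    one_smul := fun V => Subtype.ext (by
      change V.1.map (ρ 1) = V.1
      rw [map_one]
      exact Submodule.map_id _)
    mul_smul := fun g h V => Subtype.ext (by
      change V.1.map (ρ (g * h)) = (V.1.map (ρ h)).map (ρ g)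
      rw [map_mul]
      exact Submodule.map_comp _ _ _) }
  refine ⟨{
    r := _
    U := U
    mem := fun i => (e.symm i).2
    inj := hUinj
    indep := hUi
    sup := hUt
    sub := (MulAction.toPermHom G (blks B D)).ker
    fin := inferInstance
    stab := fun g hg i x hx => ?_ }⟩
  have h1 : (MulAction.toPermHom G (blks B D)) g = 1 := hg
  have h2 := congrArg (fun p : Equiv.Perm (blks B D) => (p (e.symm i)).1) h1
  have h3 : (U i).map (ρ g) = U i := h2
  rw [← h3]
  exact ⟨x, hx, rfl⟩

end Pool.Agent.TH125.Squ
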